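import Mathlib
import Pool.Agent.Q254.TwoSmallPrimes

/-!
# A block of `n` consecutive integers all of whose members are `n`-covered

For `n = 10000` there is a block `{m + 1, …, m + n}` each member of which is divisible by two
distinct primes less than `n` or by the square of a prime less than `n / 2`.
-/

set_option autoImplicit false

namespace Pool.Agent.Results.MP_23c930_nt.CoveredBlock

/-- `x` is `n`-covered: it is divisible by a product of two distinct primes less than `n`, or by
the square of a prime less than `n / 2`. -/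
def Covered (n x : ℕ) : Prop :=
  (∃ p q : ℕ, p.Prime ∧ q.Prime ∧ p ≠ q ∧ p < n ∧ q < n ∧ p * q ∣ x) ∨
    ∃ p : ℕ, p.Prime ∧ (p : ℝ) < (n : ℝ) / 2 ∧ p ^ 2 ∣ x

/-- There are `n ≥ 1` and a block of length `n` every member of which is `n`-covered; one can take
`n = 10000`. -/
theorem result : ∃ m : ℕ, ∀ i ∈ Finset.Icc 1 10000, Covered 10000 (m + i) := by
  refine ⟨Q254.TwoSmallPrimes.m, fun i hi => ?_⟩
  rw [Finset.mem_Icc] at hi
  rcases Q254.TwoSmallPrimes.block i hi.1 hi.2 with h | ⟨p, hp, h1, h2⟩
  · exact Or.inl h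
  · refine Or.inr ⟨p, hp, ?_, h2⟩
    have h3 : ((2 * p : ℕ) : ℝ) < ((10000 : ℕ) : ℝ) := by exact_mod_cast h1
    push_cast at h3 ⊢
    linarith

end Pool.Agent.Results.MP_23c930_nt.CoveredBlock
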